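import Mathlib

/-!
# Asymptotics from the recurrence
-/

set_option autoImplicit false

open Filter Topology

namespace PW.Y323

variable {a c : ℕ → ℝ} {β : ℝ}

theorem step_bound (hβ : 0 < β) (hrec : ∀ n, a (n + 2) = β ^ 2 * a n + (c (n + 2) - c n))
    {x K : ℝ} (hx : 0 < x) (hc : ∀ n, |c n| ≤ K * x ^ n) (i k : ℕ) :
    dist (a (2 * k + i) / β ^ (2 * k + i)) (a (2 * (k + 1) + i) / β ^ (2 * (k + 1) + i)) ≤
      (K * (1 + x ^ 2) * x ^ i / β ^ (i + 2)) * ((x / β) ^ 2) ^ k := by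
  have e0 : 2 * (k + 1) + i = 2 * k + i + 2 := by ring
  rw [e0, hrec, dist_eq_norm, Real.norm_eq_abs]
  have e1 : a (2 * k + i) / β ^ (2 * k + i) -
      (β ^ 2 * a (2 * k + i) + (c (2 * k + i + 2) - c (2 * k + i))) / β ^ (2 * k + i + 2) =
      (c (2 * k + i) - c (2 * k + i + 2)) / β ^ (2 * k + i + 2) := by
    rw [pow_add β (2 * k + i) 2]
    field_simp
    ring
  rw [e1, abs_div, abs_of_pos (by positivity : 0 < β ^ (2 * k + i + 2))]
  have h1 := hc (2 * k + i)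
  have h2 := hc (2 * k + i + 2)
  have h3 : |c (2 * k + i) - c (2 * k + i + 2)| ≤ K * (1 + x ^ 2) * x ^ (2 * k + i) := by
    have h4 := abs_sub (c (2 * k + i)) (c (2 * k + i + 2))
    rw [pow_add x (2 * k + i) 2] at h2
    nlinarith
  have h5 : (K * (1 + x ^ 2) * x ^ i / β ^ (i + 2)) * ((x / β) ^ 2) ^ k =
      K * (1 + x ^ 2) * x ^ (2 * k + i) / β ^ (2 * k + i + 2) := by
    rw [← pow_mul, div_pow, div_mul_div_comm]
    congr 1 <;> ring
  rw [h5]
  exact div_le_div_of_nonneg_right h3 (by positivity)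

theorem exists_limit (hβ : 0 < β) (hrec : ∀ n, a (n + 2) = β ^ 2 * a n + (c (n + 2) - c n))
    {x K : ℝ} (hx : 0 < x) (hxβ : x < β) (hc : ∀ n, |c n| ≤ K * x ^ n) (i : ℕ) :
    ∃ L : ℝ, Tendsto (fun k : ℕ => a (2 * k + i) / β ^ (2 * k + i)) atTop (𝓝 L) := by
  have hρ : (x / β) ^ 2 < 1 := by
    have h1 : x / β < 1 := (div_lt_one hβ).2 hxβ
    have h2 : 0 < x / β := by positivity
    nlinarith
  exact cauchySeq_tendsto_of_complete
    (cauchySeq_of_le_geometric _ _ hρ (fun k => step_bound hβ hrec hx hc i k))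

theorem error_bound (hβ : 0 < β) (hrec : ∀ n, a (n + 2) = β ^ 2 * a n + (c (n + 2) - c n))
    {x K : ℝ} (hx : 0 < x) (hxβ : x < β) (hc : ∀ n, |c n| ≤ K * x ^ n) (i : ℕ) {L : ℝ}
    (hL : Tendsto (fun k : ℕ => a (2 * k + i) / β ^ (2 * k + i)) atTop (𝓝 L)) (k : ℕ) :
    |a (2 * k + i) - L * β ^ (2 * k + i)| ≤
      K * (1 + x ^ 2) / (β ^ 2 - x ^ 2) * x ^ (2 * k + i) := by
  have hρ : (x / β) ^ 2 < 1 := by
    have h1 : x / β < 1 := (div_lt_one hβ).2 hxβ
    have h2 : 0 < x / β := by positivity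
    nlinarith
  have h := dist_le_of_le_geometric_of_tendsto _ _ hρ (fun k => step_bound hβ hrec hx hc i k) hL k
  rw [dist_eq_norm, Real.norm_eq_abs] at h
  have e1 : a (2 * k + i) - L * β ^ (2 * k + i) =
      (a (2 * k + i) / β ^ (2 * k + i) - L) * β ^ (2 * k + i) := by
    field_simp
  rw [e1, abs_mul, abs_of_pos (by positivity : 0 < β ^ (2 * k + i))]
  refine (mul_le_mul_of_nonneg_right h (by positivity)).trans (le_of_eq ?_)
  have h2 : β ^ 2 - x ^ 2 ≠ 0 := by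
    have : 0 < β ^ 2 - x ^ 2 := by nlinarith
    exact this.ne'
  have h3 : 1 - (x / β) ^ 2 = (β ^ 2 - x ^ 2) / β ^ 2 := by
    field_simp
  rw [h3, ← pow_mul, div_pow]
  field_simp
  ring

end PW.Y323
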