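import Pool.Agent.Helper423.PW.M4

/-!
# Slides: the count depends only on the number of large loops at one vertex
Adapted from `Pool.Agent.Helper497.SE.List` and `Pool.Agent.Helper423.PW.M4`.
-/

set_option autoImplicit false

namespace PW.Y323

open PW Finset

variable {N : ℕ}

/-- slide entropy for lists of strands -/
theorem se_list_m (Lg : Finset (Fin N)) (π : Z N → ℕ) (hl : Loops Lg π) (m : ℕ) (hm1 : 1 ≤ m)
    (hm : ∀ p, (Lg.filter (fun i => π (i, true) = p)).card ≤ m)
    (str : List (Z N × FN N × Z N))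
    (hMin : ∀ y : Z N, y.1 ∈ Lg → ∀ U : Finset (Z N), (∀ α ∈ U, α.1 ∉ Lg ∧ π α = π y) →
      fS str (fun _ => 1) ≤ fS str (fun α => if α ∈ U then lt y else 1))
    (hNP : ∀ h, Adm Lg π h → ∀ U : Finset (Z N), (∀ α ∈ U, α.1 ∉ Lg) → leav str h U ≠ 1)
    (T Δ : ℕ) (H : Set (Z N → FN N))
    (hH : ∀ h ∈ H, Adm Lg π h ∧ (∀ α, (h α).norm ≤ T) ∧
      (∀ U : Finset (Z N), U.Nonempty → (∀ α ∈ U, α.1 ∉ Lg) →
        leav str (fun _ => 1) U = 0 → ∃ α ∈ U, h α = 1) ∧
      fS str h ≤ fS str (fun _ => 1) + Δ) :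
    H.Finite ∧ H.ncard ≤ ((T + 1) * (2 * str.length + 2 * N + 1) ^ (2 * N)) ^
      ((2 * N * (2 * N) + 1) * (2 * (2 * N)) + 2 * N * (2 * N) + 1) *
      (2 ^ (2 * N) * (2 * m - 1) ^ (Δ / 2)) := by
  classical
  let F : (Z N → FN N) → (Fin (2 * N) → FN N) := fun h => h ∘ (SEL.eps N).symm
  have hFinj : Function.Injective F := by
    intro h h' hh
    funext α
    have := congrFun hh (SEL.eps N α)
    simpa [F] using this
  have himg : (F '' H).Finite := by
    refine (Pool.Agent.Helper497.SE.words_finite (N := N) (p := 2 * N) T).subset ?_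
    rintro _ ⟨h, hh, rfl⟩ i
    exact (hH h hh).2.1 _
  have hfin : H.Finite := Set.Finite.of_finite_image himg hFinj.injOn
  refine ⟨hfin, ?_⟩
  have hse := Pool.Agent.Helper497.SE.se_fin (SEL.strOf str) (SEL.allowOf Lg π)
    (2 * m - 1) (by omega) (by
      intro i x hx
      unfold SEL.allowOf at hx ⊢
      by_cases hα : ((SEL.eps N).symm i).1 ∈ Lg
      · simp [hα] at hx
      · simp only [hα, if_false, Finset.mem_filter, Finset.mem_univ, true_and] at hx ⊢
        refine ⟨hx.1, ?_⟩
        rw [← hx.2]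
        have := hl x.1 hx.1
        rcases x with ⟨j, b⟩
        cases b
        · exact this
        · exact this.symm) (by
      intro i
      unfold SEL.allowOf
      by_cases hα : ((SEL.eps N).symm i).1 ∈ Lg
      · simp [hα]
      · simp only [hα, if_false]
        have : (univ.filter (fun x : Z N => x.1 ∈ Lg ∧ π x = π ((SEL.eps N).symm i))) ⊆
            (Lg.filter (fun j => π (j, true) = π ((SEL.eps N).symm i))) ×ˢ
              (univ : Finset Bool) := by
          rintro ⟨j, b⟩ hx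
          simp only [Finset.mem_filter, Finset.mem_univ, true_and] at hx
          simp only [Finset.mem_product, Finset.mem_filter, Finset.mem_univ, and_true]
          refine ⟨hx.1, ?_⟩
          rw [← hx.2]
          cases b
          · exact hl j hx.1
          · rfl
        have h2 := Finset.card_le_card this
        rw [Finset.card_product] at h2
        simp only [Finset.card_univ, Fintype.card_bool] at h2
        have h3 := hm (π ((SEL.eps N).symm i))
        omega)
    (SEL.min_of Lg π str hMin) (SEL.np_of Lg π str hNP) T Δ (hfin.toFinset.image F)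
    (by
      intro c hc
      simp only [Finset.mem_image, Set.Finite.mem_toFinset] at hc
      obtain ⟨h, hh, rfl⟩ := hc
      exact (SEL.allowed_iff Lg π h).2 (hH h hh).1)
    (by
      intro c hc i
      simp only [Finset.mem_image, Set.Finite.mem_toFinset] at hc
      obtain ⟨h, hh, rfl⟩ := hc
      exact (hH h hh).2.1 _)
    (by
      intro c hc
      simp only [Finset.mem_image, Set.Finite.mem_toFinset] at hc
      obtain ⟨h, hh, rfl⟩ := hc
      exact SEL.nrm_of Lg π str h (hH h hh).1 (hH h hh).2.2.1)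
    (by
      intro c hc
      simp only [Finset.mem_image, Set.Finite.mem_toFinset] at hc
      obtain ⟨h, hh, rfl⟩ := hc
      have := (hH h hh).2.2.2
      rw [SEL.fS_eq, SEL.fS_eq] at this
      exact this)
  rw [Finset.card_image_of_injective _ hFinj] at hse
  rw [Set.ncard_eq_toFinset_card H hfin]
  exact hse


theorem slide_count_m (Lg : Finset (Fin N)) (π : Z N → ℕ) (B : ℕ) (hne : Lg.Nonempty) (u : FN N)
    (m : ℕ) (hm1 : 1 ≤ m) (hm : ∀ p, (Lg.filter (fun i => π (i, true) = p)).card ≤ m)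
    (hcap : ∀ L, Orb u L → Tight L → L ≠ [] → ∀ A, cap L A ≠ 1) (L0 : List (Z N))
    (hG : Good L0 Lg π B) (hn : NoSlide L0 Lg π) (hu : Orb u L0) (Δ : ℕ) :
    {c : ConjClasses (FN N) | ∃ L, Tight L ∧ L.length = L0.length + Δ ∧ Desc Lg π Δ L L0 ∧
      c = ConjClasses.mk (FreeGroup.mk L)}.Finite ∧
    {c : ConjClasses (FN N) | ∃ L, Tight L ∧ L.length = L0.length + Δ ∧ Desc Lg π Δ L L0 ∧
      c = ConjClasses.mk (FreeGroup.mk L)}.ncard ≤ slideBound N B Δ m := by
  classical
  have hl : Loops Lg π := hG.loop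
  by_cases hsm : ∃ x ∈ L0, x.1 ∉ Lg
  · obtain ⟨S, hSne, hrot, hs1, hs2⟩ := J06_blocks Lg L0 hsm
    have hGW : Good (W S) Lg π B := J31_good_rot L0 (W S) Lg π B hrot hG
    have hS : BOK Lg π S := J07_BOK_of Lg π hl S hSne hs1 hs2 hGW.tight hGW.path
    have hlen0 : L0.length = (W S).length := hrot.perm.length_eq
    have hlen1 : (W S).length = S.length + fS (strs S) (fun _ => 1) := J26_len_one Lg π S hS
    have huW : Orb u (W S) := by
      obtain ⟨φ, hφ⟩ := hu
      exact ⟨φ, hφ.trans (J05_conj_rot L0 (W S) hrot)⟩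
    have hMin : ∀ y : Z N, y.1 ∈ Lg → ∀ U : Finset (Z N), (∀ α ∈ U, α.1 ∉ Lg ∧ π α = π y) →
        fS (strs S) (fun _ => 1) ≤ fS (strs S) (fun α => if α ∈ U then lt y else 1) := by
      intro y hy U hU
      have h1 := J29_slide Lg π hl S hS y hy U hU
      have h2 := hn y U hy hU
      rw [J32_tn_rot L0 (W S) hrot U {y}, J32_tn_rot L0 (W S) hrot U _] at h2
      omega
    have hNP : ∀ h, Adm Lg π h → ∀ U : Finset (Z N), (∀ α ∈ U, α.1 ∉ Lg) →
        leav (strs S) h U ≠ 1 := by
      intro h hA U hU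
      have hS' : BOK Lg π (act h S) := J24_act_BOK Lg π hl h hA S hS
      rw [← J38_leav_act h S U, ← J27_cap Lg π (act h S) hS' U hU]
      have hW' : W (act h S) ≠ [] := by
        intro h0
        have h1 := J22_act_length h S
        rw [h0] at h1
        have h3 : S.length = 0 := by simp at h1; omega
        exact hSne (List.length_eq_zero_iff.mp h3)
      exact hcap _ (J20_orb Lg π hl h hA u (W S) _ huW (J23_act_conj Lg π h hA S hS))
        (J08_tight Lg π _ hS') hW' U
    set H : Set (Z N → FN N) := {h | Adm Lg π h ∧ (∀ α, (h α).norm ≤ 2 * Δ) ∧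
      (∀ U : Finset (Z N), U.Nonempty → (∀ α ∈ U, α.1 ∉ Lg) →
        leav (strs S) (fun _ => 1) U = 0 → ∃ α ∈ U, h α = 1) ∧
      fS (strs S) h ≤ fS (strs S) (fun _ => 1) + Δ} with hHdef
    obtain ⟨hfin, hcard⟩ := se_list_m Lg π hl m hm1 hm (strs S) hMin hNP (2 * Δ) Δ H
      (fun h hh => hh)
    have hsub : {c : ConjClasses (FN N) | ∃ L, Tight L ∧ L.length = L0.length + Δ ∧
        Desc Lg π Δ L L0 ∧ c = ConjClasses.mk (FreeGroup.mk L)} ⊆
        (fun h => ConjClasses.mk (FreeGroup.mk (W (act h S)))) '' H := by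
      rintro c ⟨L, hLt, hLl, ⟨h, hA, hT, hc⟩, rfl⟩
      have hc1 : IsConj (FreeGroup.mk L) (FreeGroup.mk (W (act h S))) :=
        (hc.trans (MonoidHom.map_isConj _ (J05_conj_rot L0 (W S) hrot))).trans
          (J23_act_conj Lg π h hA S hS).symm
      have hS' : BOK Lg π (act h S) := J24_act_BOK Lg π hl h hA S hS
      have hlen2 := J12_len_eq L _ hLt (J08_tight Lg π _ hS') hc1
      have hlen3 := J22_act_length h S
      obtain ⟨h', hA', hT', hv, hnrm⟩ := J36_normalise Lg π hl Δ (strs S)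
        (fun s hs => ⟨(hstr_of Lg π S hS s hs).1, (hstr_of Lg π S hS s hs).2.1,
          (hstr_of Lg π S hS s hs).2.2.1⟩) h hA hT
      obtain ⟨hact, hf⟩ := J39_act_congr h h' S hv
      refine ⟨h', ⟨hA', hT', hnrm, ?_⟩, ?_⟩
      · rw [hf]; omega
      · simp only [hact]
        exact (ConjClasses.mk_eq_mk_iff_isConj.mpr hc1).symm
    refine ⟨(hfin.image _).subset hsub, ?_⟩
    calc _ ≤ ((fun h => ConjClasses.mk (FreeGroup.mk (W (act h S)))) '' H).ncard :=
          Set.ncard_le_ncard hsub (hfin.image _)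
      _ ≤ H.ncard := Set.ncard_image_le hfin
      _ ≤ _ := hcard
      _ ≤ _ := bound_le N B Δ m (strs S).length (by
          obtain ⟨i, -⟩ := hne
          exact i.pos) (by
          rw [strs_length]; exact J34_k_le Lg π B S hS hGW)
  · push Not at hsm
    have hsub : {c : ConjClasses (FN N) | ∃ L, Tight L ∧ L.length = L0.length + Δ ∧
        Desc Lg π Δ L L0 ∧ c = ConjClasses.mk (FreeGroup.mk L)} ⊆
        {ConjClasses.mk (FreeGroup.mk L0)} := by
      rintro c ⟨L, hLt, hLl, ⟨h, hA, hT, hc⟩, rfl⟩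
      rw [J35_all_large Lg π h hA L0 hsm] at hc
      exact ConjClasses.mk_eq_mk_iff_isConj.mpr hc
    refine ⟨(Set.finite_singleton _).subset hsub, ?_⟩
    calc _ ≤ ({ConjClasses.mk (FreeGroup.mk L0)} : Set (ConjClasses (FN N))).ncard :=
          Set.ncard_le_ncard hsub (Set.finite_singleton _)
      _ = 1 := Set.ncard_singleton _
      _ ≤ _ := by
          unfold slideBound
          have h1 : 1 ≤ 2 * m - 1 := by omega
          exact Nat.one_le_iff_ne_zero.mpr (by positivity)



/-- if all letters are large, a slide does nothing -/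
theorem large_count (Lg : Finset (Fin N)) (π : Z N → ℕ) (L0 : List (Z N))
    (hsm : ∀ x ∈ L0, x.1 ∈ Lg) (Δ : ℕ) :
    {c : ConjClasses (FN N) | ∃ L, Tight L ∧ L.length = L0.length + Δ ∧ Desc Lg π Δ L L0 ∧
      c = ConjClasses.mk (FreeGroup.mk L)}.Finite ∧
    {c : ConjClasses (FN N) | ∃ L, Tight L ∧ L.length = L0.length + Δ ∧ Desc Lg π Δ L L0 ∧
      c = ConjClasses.mk (FreeGroup.mk L)}.ncard ≤ 1 := by
  have hsub : {c : ConjClasses (FN N) | ∃ L, Tight L ∧ L.length = L0.length + Δ ∧
      Desc Lg π Δ L L0 ∧ c = ConjClasses.mk (FreeGroup.mk L)} ⊆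
      {ConjClasses.mk (FreeGroup.mk L0)} := by
    rintro c ⟨L, hLt, hLl, ⟨h, hA, hT, hc⟩, rfl⟩
    rw [J35_all_large Lg π h hA L0 hsm] at hc
    exact ConjClasses.mk_eq_mk_iff_isConj.mpr hc
  refine ⟨(Set.finite_singleton _).subset hsub, ?_⟩
  calc _ ≤ ({ConjClasses.mk (FreeGroup.mk L0)} : Set (ConjClasses (FN N))).ncard :=
        Set.ncard_le_ncard hsub (Set.finite_singleton _)
    _ = 1 := Set.ncard_singleton _

end PW.Y323
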