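import Pool.Agent.Helper419.PW.Fin
import Pool.Agent.Y323.PW.Cnt

/-!
# The level induction with the sharper base
Adapted from `Pool.Agent.Helper419.PW.M5b` and `M5c`.  The top level (words of `F_r` in `F_{r+1}`)
has no slides at all, and on all lower levels every vertex carries at most `r - 1` large loops.
-/

set_option autoImplicit false

namespace PW.Y323

open PW

variable {N : ℕ}

/-- one level, with the base `q` of the number of slides as a parameter -/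
theorem level_one_q (r k q : ℕ) (x : ℝ) (hx1 : 1 < x) (hx : Real.sqrt (q : ℝ) < x)
    (u : FreeGroup (Fin N)) (B : ℕ) (Lg : Finset (Fin N)) (π : Z N → ℕ) (Φ : ℕ) (E : ℕ)
    (hstep : ∀ (D : ℕ) (L : List (Z N)), Sta r B L Lg π → Orb u L → NoSlide L Lg π →
      (∃ L1 : List (Z N), Sta r B L1 Lg π ∧ Orb u L1 ∧ L1.length + D ≤ L.length ∧
        ms2 L1 Lg = ms2 L Lg ∧ Rel L1 L) ∨
      (∃ (L1 : List (Z (N + 1))) (Lg1 : Finset (Fin (N + 1))) (π1 : Z (N + 1) → ℕ),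
        Sta r (B + 2 * D + 2 * k) L1 Lg1 π1 ∧ Orb (embF u) L1 ∧
        L1.length ≤ L.length + (B + 2 * D + 4 * k) ∧
        (ms1 Lg1 π1 < ms1 Lg π ∨ (ms1 Lg1 π1 = ms1 Lg π ∧ ms2 L1 Lg1 < ms2 L Lg)) ∧
        Rel L1 (embL L)))
    (Θ : Set (FreeGroup (Fin N) ≃* FreeGroup (Fin N))) (hΘ : Θ.Finite)
    (hrel : ∀ L1 L : List (Z N), Rel L1 L → ∃ φ ∈ Θ, IsConj (FreeGroup.mk L) (φ (FreeGroup.mk L1)))
    (Θ' : Set (FreeGroup (Fin (N + 1)) ≃* FreeGroup (Fin (N + 1))))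
    (hrel' : ∀ L1 L : List (Z (N + 1)), Rel L1 L →
      ∃ φ ∈ Θ', IsConj (FreeGroup.mk L) (φ (FreeGroup.mk L1)))
    (hlow : ∀ D, Exp clen x (Low r (B + 2 * D + 2 * k) (B + 2 * D + 4 * k) u Θ' (ms1 Lg π) Φ))
    (hdesc : ∀ L : List (Z N), Good L Lg π B → ∃ L0, Good L0 Lg π B ∧ NoSlide L0 Lg π ∧
      L0.length ≤ L.length ∧ (∀ i, i ∉ Lg → deg L0 i = deg L i) ∧
      Desc Lg π (L.length - L0.length) L L0 ∧ (Orb u L → Orb u L0))
    (hcount : ∀ L0, Sta r B L0 Lg π → NoSlide L0 Lg π → Orb u L0 → ms2 L0 Lg = Φ → ∀ Δ : ℕ,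
      {c : CC N | ∃ L, Tight L ∧ L.length = L0.length + Δ ∧ Desc Lg π Δ L L0 ∧
        c = ConjClasses.mk (FreeGroup.mk L)}.Finite ∧
      {c : CC N | ∃ L, Tight L ∧ L.length = L0.length + Δ ∧ Desc Lg π Δ L L0 ∧
        c = ConjClasses.mk (FreeGroup.mk L)}.ncard ≤
        ((2 * Δ + 2) * (2 * N * B + 2 * N + 2)) ^ E * q ^ (Δ / 2)) :
    Exp clen x (XL r B u Lg π Φ) := by
  classical
  letI : Fintype Θ := hΘ.fintype
  set S : ℕ → ℝ := fun Δ => (((2 * Δ + 2) * (2 * N * B + 2 * N + 2)) ^ E : ℝ) *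
    (q : ℝ) ^ (Δ / 2) with hSdef
  have hS0 : ∀ Δ, 0 ≤ S Δ := fun Δ => by simp only [hSdef]; positivity
  obtain ⟨hsum, D, hD1, hsmall⟩ := pw_choiceb q x hx hx1 S hS0 1
    (2 * (2 * N * B + 2 * N + 2)) (2 * (2 * N * B + 2 * N + 2)) (by norm_num) (by positivity)
    (by positivity) E (fun Δ => by
      simp only [hSdef]
      refine le_of_eq ?_
      congr 1
      rw [one_mul]
      congr 1
      ring) (Fintype.card Θ : ℝ)
  refine Exp.level clen (fun (φ : Θ) c => ConjClasses.map φ.1.toMonoidHom c)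
    (XL r B u Lg π Φ) (XL0 r B u Lg π Φ)
    (Low r (B + 2 * D + 2 * k) (B + 2 * D + 4 * k) u Θ' (ms1 Lg π) Φ) ?_ ?_ x hx1 (hlow D) D hD1 ?_
    (fun c c0 => ∃ L L0 : List (Z N), Tight L ∧ L ≠ [] ∧ Tight L0 ∧ L0 ≠ [] ∧ cl L = c ∧ cl L0 = c0 ∧
      Desc Lg π (L.length - L0.length) L L0) S hS0 ?_ ?_ hsum hsmall
  · rintro c ⟨L, h1, h2, h3, _, h5⟩
    exact ⟨L, h1, h2, h3, h5⟩
  · intro n
    refine (finite_cl (N := N) n).subset ?_
    rintro c ⟨⟨L, h1, _, _, rfl⟩, hn⟩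
    rw [clen_cl L h1.good.tight h1.good.ne] at hn
    exact ⟨L, hn, rfl⟩
  · rintro c ⟨L, h1, h2, h3, h4, rfl⟩
    rcases hstep D L h1 h2 h4 with ⟨L1, g1, g2, g3, g4, g5⟩ | ⟨L1, Lg1, π1, g1, g2, g3, g4, g5⟩
    · left
      obtain ⟨φ, hφ, hc⟩ := hrel L1 L g5
      refine ⟨⟨φ, hφ⟩, cl L1, ⟨L1, g1, g2, g4.trans h3, rfl⟩, ?_, ?_⟩
      · rw [clen_cl L1 g1.good.tight g1.good.ne, clen_cl L h1.good.tight h1.good.ne]
        exact g3
      · exact (ConjClasses.mk_eq_mk_iff_isConj.mpr hc.symm)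
    · right
      obtain ⟨φ, hφ, hc⟩ := hrel' L1 (embL L) g5
      refine ⟨φ, Lg1, π1, ms2 L1 Lg1, hφ, g1.bd, ms2_le' g1.good, ?_, cl L1, ⟨L1, g1, g2, rfl, rfl⟩,
        ?_, ?_⟩
      · rw [← h3]; exact g4
      · rw [clen_cl L1 g1.good.tight g1.good.ne, clen_cl L h1.good.tight h1.good.ne]
        exact g3
      · rw [mk_embL] at hc
        exact (ConjClasses.mk_eq_mk_iff_isConj.mpr hc.symm)
  · rintro c ⟨L, h1, h2, h3, rfl⟩
    obtain ⟨L0, g1, g2, g3, g4, g5, g6⟩ := hdesc L h1.good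
    obtain ⟨k1, k2⟩ := Sta_slide' h1 g1 g4
    refine ⟨cl L0, ⟨L0, k1, g6 h2, k2.trans h3, g2, rfl⟩,
      ⟨L, L0, h1.good.tight, h1.good.ne, g1.tight, g1.ne, rfl, rfl, g5⟩, ?_⟩
    rw [clen_cl L0 g1.tight g1.ne, clen_cl L h1.good.tight h1.good.ne]
    exact g3
  · rintro c0 ⟨L00, h1, h2, h3, h4, rfl⟩ Δ
    obtain ⟨hf, hc⟩ := hcount L00 h1 h4 h2 h3 Δ
    have hsub : {c | (∃ L L0 : List (Z N), Tight L ∧ L ≠ [] ∧ Tight L0 ∧ L0 ≠ [] ∧ cl L = c ∧
        cl L0 = cl L00 ∧ Desc Lg π (L.length - L0.length) L L0) ∧ clen c = clen (cl L00) + Δ} ⊆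
        {c : CC N | ∃ L, Tight L ∧ L.length = L00.length + Δ ∧ Desc Lg π Δ L L00 ∧
        c = ConjClasses.mk (FreeGroup.mk L)} := by
      rintro c ⟨⟨L, L0, t1, t2, t3, t4, rfl, t6, t7⟩, t8⟩
      rw [clen_cl L t1 t2, clen_cl L00 h1.good.tight h1.good.ne] at t8
      have hcj : IsConj (FreeGroup.mk L0) (FreeGroup.mk L00) :=
        ConjClasses.mk_eq_mk_iff_isConj.mp t6
      have hl := m5b_len L0 L00 t3 h1.good.tight hcj
      refine ⟨L, t1, t8, ?_, rfl⟩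
      have hΔ : L.length - L0.length = Δ := by omega
      rw [hΔ] at t7
      exact desc_congr' hcj t7
    refine ⟨hf.subset hsub, ?_⟩
    have e1 := Set.ncard_le_ncard hsub hf
    have e3 := e1.trans hc
    have e4 : (({c | (∃ L L0 : List (Z N), Tight L ∧ L ≠ [] ∧ Tight L0 ∧ L0 ≠ [] ∧ cl L = c ∧
        cl L0 = cl L00 ∧ Desc Lg π (L.length - L0.length) L L0) ∧
        clen c = clen (cl L00) + Δ}.ncard : ℕ) : ℝ) ≤
        ((((2 * Δ + 2) * (2 * N * B + 2 * N + 2)) ^ E * q ^ (Δ / 2) : ℕ) : ℝ) := by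
      exact_mod_cast e3
    refine e4.trans (le_of_eq ?_)
    simp only [hSdef]
    push_cast
    rfl



theorem loops_le {r : ℕ} (Lg : Finset (Fin N)) (π : Z N → ℕ) (hcard : Lg.card ≤ r)
    (hms : ms1 Lg π < 2 * r - 1) (p : ℕ) :
    (Lg.filter (fun i => π (i, true) = p)).card ≤ r - 1 := by
  classical
  by_contra hcon
  have h1 : (Lg.filter (fun i => π (i, true) = p)).card ≤ Lg.card := Finset.card_filter_le _ _
  have h2 : Lg.card = r := by omega
  have h3 : (Lg.filter (fun i => π (i, true) = p)) = Lg :=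
    Finset.eq_of_subset_of_card_le (Finset.filter_subset _ _) (by omega)
  have h4 : (Vl Lg π).card ≤ 1 := by
    refine (Finset.card_le_card (t := {p}) ?_).trans (by simp)
    intro y hy
    unfold Vl at hy
    rw [Finset.mem_image] at hy
    obtain ⟨i, hi, rfl⟩ := hy
    rw [← h3, Finset.mem_filter] at hi
    simp [hi.2]
  unfold ms1 at hms
  omega

/-- the lower levels -/
theorem level_low (r k : ℕ) (hr : 2 ≤ r) (x : ℝ) (hx1 : 1 < x)
    (hx : Real.sqrt ((2 * (r - 1) - 1 : ℕ) : ℝ) < x) :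
    ∀ (s Φ N : ℕ) (u : FreeGroup (Fin N)), s < 2 * r - 1 → PP k N u →
      ∀ (B : ℕ) (Lg : Finset (Fin N)) (π : Z N → ℕ),
      ms1 Lg π = s → Exp clen x (XL r B u Lg π Φ) := by
  have H := hyp_PP r k
  intro s
  induction s using Nat.strong_induction_on with
  | _ s ihs =>
    intro Φ
    induction Φ using Nat.strong_induction_on with
    | _ Φ ihΦ =>
      intro N u hsr hu B Lg π hs
      rcases Lg.eq_empty_or_nonempty with rfl | hne
      · refine Exp.of_finite hx1.le ((finite_cl_le (N := N) (N * B)).subset ?_)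
        rintro c ⟨L, h1, _, _, rfl⟩
        exact ⟨L, small_len' h1.good, rfl⟩
      · by_cases hcard : Lg.card ≤ r
        · obtain ⟨Θ, hΘ, hrel⟩ := H.rel N
          obtain ⟨Θ', hΘ', hrel'⟩ := H.rel (N + 1)
          refine level_one_q r k (2 * (r - 1) - 1) x hx1 hx u B Lg π Φ (EN N)
            (H.step N u hu B Lg π hne) Θ hΘ hrel
            Θ' hrel' (fun D => ?_) (H.desc N u hu B Lg π hne) ?_
          · refine Low_exp r _ _ u Θ' hΘ' (ms1 Lg π) Φ x hx1 ?_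
            intro Lg1 π1 Φ1 hl
            rw [hs] at hl
            rcases hl with hl | ⟨hl, hΦ⟩
            · exact ihs _ hl Φ1 (N + 1) (embF u) (by omega) (H.succ N u hu) _ Lg1 π1 rfl
            · exact ihΦ Φ1 hΦ (N + 1) (embF u) hsr (H.succ N u hu) _ Lg1 π1 hl
          · intro L0 hG hns ho _ Δ
            obtain ⟨h1, h2, h3⟩ := hu
            refine slide_count_m Lg π B hne u (r - 1) (by omega)
              (loops_le Lg π hcard (by omega)) (fun L hL _ _ A => cap_ne_one ?_ hL A)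
              L0 hG.good hns ho Δ
            rintro ⟨φ, i, h⟩
            exact h3 ⟨i, φ, h⟩
        · refine (Exp.empty clen x).mono ?_
          rintro c ⟨L, h1, _⟩
          exact absurd h1.card hcard

/-- the words of `F_r`: no slides -/
theorem level_top (r k : ℕ) (hr : 2 ≤ r) (x : ℝ) (hx1 : 1 < x)
    (hx : Real.sqrt ((2 * (r - 1) - 1 : ℕ) : ℝ) < x) (u : FreeGroup (Fin (r + 1)))
    (hu : PP k (r + 1) u) :
    Exp clen x (XL r 0 u (Finset.univ.erase (Fin.last r)) (fun _ => 0) 0) := by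
  have H := hyp_PP r k
  have hcard : (Finset.univ.erase (Fin.last r)).card = r := by
    rw [Finset.card_erase_of_mem (Finset.mem_univ _)]
    simp
  have hne : (Finset.univ.erase (Fin.last r)).Nonempty := by
    rw [← Finset.card_pos, hcard]; omega
  have hms : ms1 (Finset.univ.erase (Fin.last r)) (fun _ => 0) ≤ 2 * r - 1 := by
    unfold ms1
    rw [hcard]
    have : 0 < (Vl (Finset.univ.erase (Fin.last r)) (fun _ => 0)).card := by
      rw [Finset.card_pos]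
      exact hne.image _
    omega
  obtain ⟨Θ, hΘ, hrel⟩ := H.rel (r + 1)
  obtain ⟨Θ', hΘ', hrel'⟩ := H.rel (r + 1 + 1)
  refine level_one_q r k 1 x hx1 (by simpa using hx1) u 0 _ _ 0 0
    (H.step (r + 1) u hu 0 _ _ hne) Θ hΘ hrel
    Θ' hrel' (fun D => ?_) (H.desc (r + 1) u hu 0 _ _ hne) ?_
  · refine Low_exp r _ _ u Θ' hΘ' _ 0 x hx1 ?_
    intro Lg1 π1 Φ1 hl
    rcases hl with hl | ⟨hl, hΦ⟩
    · exact level_low r k hr x hx1 hx _ Φ1 (r + 1 + 1) (embF u) (by omega) (H.succ _ u hu) _ Lg1 π1 rfl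
    · exact absurd hΦ (Nat.not_lt_zero _)
  · intro L0 hS hns ho h0 Δ
    have hz : ∀ x ∈ L0, x.1 ∈ Finset.univ.erase (Fin.last r) := by
      intro y hy
      by_contra hcon
      have hp : 0 < deg L0 y.1 := by
        unfold deg
        rw [List.countP_pos_iff]
        exact ⟨y, hy, by simp⟩
      unfold ms2 at h0
      rw [Finset.sum_eq_zero_iff] at h0
      have := h0 y.1 (by simp only [Finset.mem_filter, Finset.mem_univ, true_and]; exact ⟨hcon, hp⟩)
      exact absurd this (by positivity)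
    obtain ⟨h1, h2⟩ := large_count _ (fun _ => 0) L0 hz Δ
    exact ⟨h1, h2.trans (by simp)⟩

/-- the number of conjugacy classes of length `n` of the orbit in the first `r` letters of
`F_{r+1}` -/
theorem cls_bound (r : ℕ) (hr : 2 ≤ r) (u : FreeGroup (Fin (r + 1))) (hu1 : u ≠ 1)
    (hu : ¬ ∃ i : Fin (r + 1), ∃ φ : FreeGroup (Fin (r + 1)) ≃* FreeGroup (Fin (r + 1)),
      φ (FreeGroup.of i) = u) (x : ℝ) (hx : Real.sqrt (2 * (r : ℝ) - 3) < x) :
    ∃ K : ℝ, 0 ≤ K ∧ ∀ n : ℕ, ((clsN r u n).ncard : ℝ) ≤ K * x ^ n := by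
  have e : ((2 * (r - 1) - 1 : ℕ) : ℝ) = 2 * (r : ℝ) - 3 := by
    have h1 : 1 ≤ 2 * (r - 1) := by omega
    have h2 : 1 ≤ r := by omega
    rw [Nat.cast_sub h1, Nat.cast_mul, Nat.cast_sub h2]
    push_cast
    ring
  have hr' : (2 : ℝ) ≤ r := by exact_mod_cast hr
  have hx1 : 1 < x := by
    refine lt_of_le_of_lt ?_ hx
    rw [Real.one_le_sqrt]
    linarith
  obtain ⟨K, hK0, h⟩ := level_top r u.norm hr x hx1 (by rw [e]; exact hx) u ⟨hu1, le_refl _, hu⟩
  refine ⟨K, hK0, fun n => ?_⟩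
  have hsub : clsN r u n ⊆
      {c | c ∈ XL r 0 u (Finset.univ.erase (Fin.last r)) (fun _ => 0) 0 ∧ clen c = n} := by
    rintro c ⟨L, h1, h2, h3, h4, h5, rfl⟩
    have hl : deg L (Fin.last r) = 0 := h4 (Fin.last r) (by simp)
    refine ⟨⟨L, Sta_init' L h3 h2 hl, h1, ?_, rfl⟩, ?_⟩
    · unfold ms2
      refine Finset.sum_eq_zero ?_
      intro i hi
      exfalso
      rw [Finset.mem_filter] at hi
      obtain ⟨_, hi1, hi2⟩ := hi
      have : i = Fin.last r := by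
        by_contra hh
        exact hi1 (by simp [hh])
      rw [this, hl] at hi2
      exact lt_irrefl _ hi2
    · have := clen_cl L h2 h3
      exact this.trans h5
  refine le_trans ?_ (h n).2
  exact_mod_cast Set.ncard_le_ncard hsub (h n).1

end PW.Y323
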