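import Mathlib

/-!
# A recurrence for the spheres of a conjugation invariant subset of a free group
-/

set_option autoImplicit false

open FreeGroup

namespace PW.Y323

variable {r : ℕ}

/-- the inverse letter -/
def iv (x : Fin r × Bool) : Fin r × Bool := (x.1, !x.2)

/-- reduced words of length `n` in `S` -/
def RW (S : Set (FreeGroup (Fin r))) (n : ℕ) : Set (List (Fin r × Bool)) :=
  {L | IsReduced L ∧ L.length = n ∧ mk L ∈ S}

/-- cyclically reduced words of length `n` in `S` -/
def CW (S : Set (FreeGroup (Fin r))) (n : ℕ) : Set (List (Fin r × Bool)) :=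
  {L | IsCyclicallyReduced L ∧ L.length = n ∧ mk L ∈ S}

theorem RW_finite (S : Set (FreeGroup (Fin r))) (n : ℕ) : (RW S n).Finite :=
  (List.finite_length_eq _ n).subset fun _ h => h.2.1

theorem CW_finite (S : Set (FreeGroup (Fin r))) (n : ℕ) : (CW S n).Finite :=
  (List.finite_length_eq _ n).subset fun _ h => h.2.1

theorem rel_iff (a b : Fin r × Bool) : (a.1 = b.1 → a.2 = b.2) ↔ a ≠ iv b := by
  obtain ⟨i, x⟩ := a
  obtain ⟨j, y⟩ := b
  simp only [iv, ne_eq, Prod.mk.injEq, not_and]
  cases x <;> cases y <;> simp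

theorem iv_iv (a : Fin r × Bool) : iv (iv a) = a := by
  simp [iv]

theorem red_iff (v : List (Fin r × Bool)) (hv : v ≠ []) (hr : IsReduced v) (s : Fin r × Bool) :
    IsReduced (s :: (v ++ [iv s])) ↔ s ≠ iv (v.head hv) ∧ s ≠ v.getLast hv := by
  unfold FreeGroup.IsReduced at hr ⊢
  rw [List.isChain_cons, List.isChain_append]
  have h1 : (v ++ [iv s]).head? = some (v.head hv) := by
    rw [List.head?_append, List.head?_eq_some_head hv]
    rfl
  have h2 : v.getLast? = some (v.getLast hv) := List.getLast?_eq_some_getLast hv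
  rw [h1, h2]
  simp only [Option.mem_def, Option.some.injEq, forall_eq', List.head?_cons, hr, true_and,
    List.isChain_singleton]
  rw [rel_iff, rel_iff, iv_iv]
  exact and_congr Iff.rfl ne_comm

theorem cyc_iff (v : List (Fin r × Bool)) (hv : v ≠ []) (hr : IsReduced v) :
    IsCyclicallyReduced v ↔ v.getLast hv ≠ iv (v.head hv) := by
  unfold FreeGroup.IsCyclicallyReduced
  have h1 : v.head? = some (v.head hv) := List.head?_eq_some_head hv
  have h2 : v.getLast? = some (v.getLast hv) := List.getLast?_eq_some_getLast hv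
  rw [h1, h2]
  simp only [Option.mem_def, Option.some.injEq, forall_eq', hr, true_and]
  rw [rel_iff]

theorem mk_conj (s : Fin r × Bool) (v : List (Fin r × Bool)) :
    mk (s :: (v ++ [iv s])) = mk [s] * mk v * (mk [s])⁻¹ := by
  rw [inv_mk, mul_mk, mul_mk]
  congr 1

open Classical in
/-- the number of letters by which one can conjugate -/
theorem card_letters (hr2 : 2 ≤ r) (v : List (Fin r × Bool)) (hv : v ≠ []) (hr : IsReduced v) :
    (Finset.univ.filter (fun s : Fin r × Bool => IsReduced (s :: (v ++ [iv s])))).card +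
      (if IsCyclicallyReduced v then 1 else 0) = 2 * r - 1 := by
  have h : (Finset.univ.filter (fun s : Fin r × Bool => IsReduced (s :: (v ++ [iv s])))) =
      Finset.univ \ {iv (v.head hv), v.getLast hv} := by
    ext s
    simp only [Finset.mem_filter, Finset.mem_univ, true_and, Finset.mem_sdiff,
      Finset.mem_insert, Finset.mem_singleton, not_or]
    exact red_iff v hv hr s
  rw [h, Finset.card_sdiff_of_subset (Finset.subset_univ _)]
  have hc : (Finset.univ : Finset (Fin r × Bool)).card = 2 * r := by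
    simp [mul_comm]
  rw [hc]
  split_ifs with h2
  · rw [cyc_iff v hv hr] at h2
    rw [Finset.card_pair h2.symm]
    omega
  · rw [cyc_iff v hv hr, not_not] at h2
    rw [h2, Finset.pair_eq_singleton, Finset.card_singleton]
    omega

open Classical in
/-- the recurrence -/
theorem recurrence (hr2 : 2 ≤ r) (S : Set (FreeGroup (Fin r)))
    (hS : ∀ g w : FreeGroup (Fin r), w ∈ S → g * w * g⁻¹ ∈ S) (h1 : (1 : FreeGroup (Fin r)) ∉ S)
    (n : ℕ) :
    (RW S (n + 2)).ncard + (CW S n).ncard = (2 * r - 1) * (RW S n).ncard + (CW S (n + 2)).ncard := by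
  set A := (RW_finite S n).toFinset with hA
  set A2 := (RW_finite S (n + 2)).toFinset with hA2
  have eA : (RW S n).ncard = A.card := Set.ncard_eq_toFinset_card _ (RW_finite S n)
  have eA2 : (RW S (n + 2)).ncard = A2.card := Set.ncard_eq_toFinset_card _ (RW_finite S (n + 2))
  have memA : ∀ L, L ∈ A ↔ IsReduced L ∧ L.length = n ∧ mk L ∈ S := by
    intro L
    rw [hA, Set.Finite.mem_toFinset]
    rfl
  have memA2 : ∀ L, L ∈ A2 ↔ IsReduced L ∧ L.length = n + 2 ∧ mk L ∈ S := by
    intro L
    rw [hA2, Set.Finite.mem_toFinset]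
    rfl
  have eC : (CW S n).ncard = (A.filter IsCyclicallyReduced).card := by
    rw [← Set.ncard_coe_finset]
    congr 1
    ext L
    rw [Finset.mem_coe, Finset.mem_filter, memA]
    constructor
    · rintro ⟨h2, h3, h4⟩
      exact ⟨⟨h2.1, h3, h4⟩, h2⟩
    · rintro ⟨⟨_, h3, h4⟩, h2⟩
      exact ⟨h2, h3, h4⟩
  have eC2 : (CW S (n + 2)).ncard = (A2.filter IsCyclicallyReduced).card := by
    rw [← Set.ncard_coe_finset]
    congr 1
    ext L
    rw [Finset.mem_coe, Finset.mem_filter, memA2]
    constructor
    · rintro ⟨h2, h3, h4⟩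
      exact ⟨⟨h2.1, h3, h4⟩, h2⟩
    · rintro ⟨⟨_, h3, h4⟩, h2⟩
      exact ⟨h2, h3, h4⟩
  have hne : ∀ v ∈ A, v ≠ [] := by
    rintro v hv rfl
    exact h1 ((memA _).1 hv).2.2
  -- the words which are not cyclically reduced
  have hbij : (A2.filter (fun L => ¬ IsCyclicallyReduced L)).card =
      ∑ v ∈ A, (Finset.univ.filter (fun s : Fin r × Bool => IsReduced (s :: (v ++ [iv s])))).card := by
    rw [← Finset.card_sigma]
    symm
    refine Finset.card_bij (fun p _ => p.2 :: (p.1 ++ [iv p.2])) ?_ ?_ ?_
    · rintro ⟨v, s⟩ hp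
      simp only [Finset.mem_sigma, Finset.mem_filter, Finset.mem_univ, true_and] at hp
      obtain ⟨hv, hs⟩ := hp
      have hv' := (memA v).1 hv
      rw [Finset.mem_filter, memA2]
      refine ⟨⟨hs, ?_, ?_⟩, ?_⟩
      · simp [hv'.2.1]
      · rw [mk_conj]
        exact hS _ _ hv'.2.2
      · rw [cyc_iff _ (by simp) hs]
        simp
    · rintro ⟨v, s⟩ _ ⟨v', s'⟩ _ h
      simp only [List.cons.injEq] at h
      obtain ⟨rfl, h⟩ := h
      have := List.append_cancel_right h
      subst this
      rfl
    · intro L hL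
      rw [Finset.mem_filter, memA2] at hL
      obtain ⟨⟨hred, hlen, hmem⟩, hnc⟩ := hL
      obtain ⟨s, t, rfl⟩ : ∃ s t, L = s :: t := by
        cases L with
        | nil => simp at hlen
        | cons s t => exact ⟨s, t, rfl⟩
      have ht : t ≠ [] := by
        rintro rfl
        simp at hlen
      obtain ⟨v, b, rfl⟩ : ∃ v b, t = v ++ [b] := ⟨t.dropLast, t.getLast ht,
        (List.dropLast_append_getLast ht).symm⟩
      rw [cyc_iff _ (by simp) hred, not_not] at hnc
      have hb : b = iv s := by simpa using hnc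
      subst hb
      have hvred : FreeGroup.IsReduced v := by
        have hred' := hred
        unfold FreeGroup.IsReduced at hred' ⊢
        rw [List.isChain_cons, List.isChain_append] at hred'
        exact hred'.2.1
      refine ⟨⟨v, s⟩, ?_, rfl⟩
      rw [Finset.mem_sigma, memA]
      refine ⟨⟨hvred, ?_, ?_⟩, ?_⟩
      · simp at hlen
        exact hlen
      · rw [mk_conj] at hmem
        have := hS (mk [s])⁻¹ _ hmem
        have e : (mk [s])⁻¹ * (mk [s] * mk v * (mk [s])⁻¹) * ((mk [s])⁻¹)⁻¹ = mk v := by group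
        rwa [e] at this
      · simp only [Finset.mem_filter, Finset.mem_univ, true_and]
        exact hred
  have hsum : ∑ v ∈ A, (Finset.univ.filter
      (fun s : Fin r × Bool => IsReduced (s :: (v ++ [iv s])))).card +
      (A.filter IsCyclicallyReduced).card = (2 * r - 1) * A.card := by
    rw [Finset.card_filter, ← Finset.sum_add_distrib]
    rw [Finset.sum_congr rfl (fun v hv => card_letters hr2 v (hne v hv) ((memA v).1 hv).1)]
    rw [Finset.sum_const, smul_eq_mul, mul_comm]
  have hsplit := Finset.card_filter_add_card_filter_not (s := A2) IsCyclicallyReduced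
  rw [eA, eA2, eC, eC2]
  omega

end PW.Y323
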