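import Pool.Agent.Y323.PW.Lvl
import Pool.Agent.Y323.PW.Rec
import Pool.Agent.Y323.PW.Asy

/-!
# Asymptotics of automorphic orbits
-/

set_option autoImplicit false

open FreeGroup Filter Topology

namespace PW.Y323

variable {r : ℕ}

/-- the automorphic orbit of `u` -/
def orbit (u : FreeGroup (Fin r)) : Set (FreeGroup (Fin r)) :=
  {w | ∃ φ : FreeGroup (Fin r) ≃* FreeGroup (Fin r), φ u = w}

/-- `u` belongs to some free basis -/
def Primitive (u : FreeGroup (Fin r)) : Prop :=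
  ∃ (ι : Type) (b : FreeGroupBasis ι (FreeGroup (Fin r))) (i : ι), b i = u

/-- the number of elements of length `n` of the orbit of `u` -/
noncomputable def sphere (u : FreeGroup (Fin r)) (n : ℕ) : ℕ :=
  {w | w ∈ orbit u ∧ w.norm = n}.ncard

/-- the number of cyclically reduced elements of length `n` of the orbit of `u` -/
noncomputable def cycSphere (u : FreeGroup (Fin r)) (n : ℕ) : ℕ :=
  {w | w ∈ orbit u ∧ w.norm = n ∧ IsCyclicallyReduced w.toWord}.ncard

theorem orbit_conj (u g w : FreeGroup (Fin r)) (h : w ∈ orbit u) : g * w * g⁻¹ ∈ orbit u := by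
  obtain ⟨φ, rfl⟩ := h
  exact ⟨φ.trans (MulAut.conj g), by simp [MulAut.conj_apply]⟩

theorem one_notMem (u : FreeGroup (Fin r)) (hu : u ≠ 1) : (1 : FreeGroup (Fin r)) ∉ orbit u := by
  rintro ⟨φ, h⟩
  exact hu (by simpa using h)

theorem sphere_eq (u : FreeGroup (Fin r)) (n : ℕ) : sphere u n = (RW (orbit u) n).ncard := by
  unfold sphere
  symm
  refine Set.ncard_congr (fun L _ => mk L) ?_ ?_ ?_
  · rintro L ⟨h1, h2, h3⟩
    refine ⟨h3, ?_⟩
    unfold FreeGroup.norm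
    rw [toWord_mk, h1.reduce_eq, h2]
  · rintro L L' ⟨h1, _, _⟩ ⟨h1', _, _⟩ h
    have := congrArg toWord h
    rwa [toWord_mk, toWord_mk, h1.reduce_eq, h1'.reduce_eq] at this
  · rintro w ⟨h1, h2⟩
    exact ⟨w.toWord, ⟨isReduced_toWord, h2, by rwa [mk_toWord]⟩, mk_toWord⟩

theorem cycSphere_eq (u : FreeGroup (Fin r)) (n : ℕ) : cycSphere u n = (CW (orbit u) n).ncard := by
  unfold cycSphere
  symm
  refine Set.ncard_congr (fun L _ => mk L) ?_ ?_ ?_
  · rintro L ⟨h1, h2, h3⟩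
    refine ⟨h3, ?_, ?_⟩
    · unfold FreeGroup.norm
      rw [toWord_mk, h1.1.reduce_eq, h2]
    · rwa [toWord_mk, h1.1.reduce_eq]
  · rintro L L' ⟨h1, _, _⟩ ⟨h1', _, _⟩ h
    have := congrArg toWord h
    rwa [toWord_mk, toWord_mk, h1.1.reduce_eq, h1'.1.reduce_eq] at this
  · rintro w ⟨h1, h2, h3⟩
    exact ⟨w.toWord, ⟨h3, h2, by rwa [mk_toWord]⟩, mk_toWord⟩

theorem rec_real (hr : 2 ≤ r) (u : FreeGroup (Fin r)) (hu : u ≠ 1) (n : ℕ) :
    (sphere u (n + 2) : ℝ) = Real.sqrt (2 * (r : ℝ) - 1) ^ 2 * sphere u n +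
      ((cycSphere u (n + 2) : ℝ) - cycSphere u n) := by
  have h := recurrence hr (orbit u) (fun g w hw => orbit_conj u g w hw) (one_notMem u hu) n
  rw [← sphere_eq, ← sphere_eq, ← cycSphere_eq, ← cycSphere_eq] at h
  have hr' : (2 : ℝ) ≤ r := by exact_mod_cast hr
  rw [Real.sq_sqrt (by linarith)]
  have hcast : ((2 * r - 1 : ℕ) : ℝ) = 2 * (r : ℝ) - 1 := by
    rw [Nat.cast_sub (by omega)]; push_cast; ring
  have h2 : (sphere u (n + 2) : ℝ) + cycSphere u n =
      ((2 * r - 1 : ℕ) : ℝ) * sphere u n + cycSphere u (n + 2) := by exact_mod_cast h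
  rw [hcast] at h2
  linarith

theorem not_prim_of (u : FreeGroup (Fin r)) (h : ¬ Primitive u) (i : Fin r) :
    ¬ ∃ φ : FreeGroup (Fin r) ≃* FreeGroup (Fin r), φ (FreeGroup.of i) = u := by
  rintro ⟨φ, hφ⟩
  exact h ⟨Fin r, (FreeGroupBasis.ofFreeGroup (Fin r)).map φ, i, by simpa using hφ⟩

theorem cyc_bound (hr : 2 ≤ r) (u : FreeGroup (Fin r)) (hu : u ≠ 1) (hp : ¬ Primitive u) (x : ℝ)
    (hx : Real.sqrt (2 * (r : ℝ) - 3) < x) :
    ∃ K : ℝ, 0 ≤ K ∧ ∀ n : ℕ, (cycSphere u n : ℝ) ≤ K * x ^ n := by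
  set b := Real.sqrt (2 * (r : ℝ) - 3) with hb
  have hb0 : 0 ≤ b := Real.sqrt_nonneg _
  have hu' : FreeGroup.map (Fin.castLE (Nat.le_succ r)) u ≠ 1 := by
    intro h
    apply hu
    apply FreeGroup.map_injective (Fin.castLE_injective (Nat.le_succ r))
    rw [h]; exact (MonoidHom.map_one _).symm
  obtain ⟨K, hK0, hK⟩ := cls_bound r hr (FreeGroup.map (Fin.castLE (Nat.le_succ r)) u) hu' (by
    intro h
    obtain ⟨i, hi⟩ := PW6.prim_descend (Nat.le_succ r) u h
    exact not_prim_of u hp i hi) ((b + x) / 2) (by rw [← hb]; linarith)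
  obtain ⟨K', hK'0, hK'⟩ := PW6.poly_absorb ((b + x) / 2) x (by linarith) (by linarith)
  refine ⟨K * K', by positivity, fun n => ?_⟩
  have h1 : cycSphere u n ≤ (n + 1) * (clsN r (FreeGroup.map (Fin.castLE (Nat.le_succ r)) u) n).ncard := by
    rw [cycSphere_eq]
    have e : CW (orbit u) n = PW6.cyc u n := rfl
    rw [e]
    refine (PW6.cyc_card_le (Nat.le_succ r) u n).trans (Nat.mul_le_mul_left _ ?_)
    exact Set.ncard_le_ncard (cls_subset hu' n) (clsN_finite r _ n)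
  have h2 : (cycSphere u n : ℝ) ≤ ((n : ℝ) + 1) *
      (clsN r (FreeGroup.map (Fin.castLE (Nat.le_succ r)) u) n).ncard := by exact_mod_cast h1
  have h3 := mul_le_mul_of_nonneg_left (hK n) (by positivity : (0 : ℝ) ≤ (n : ℝ) + 1)
  have h4 := mul_le_mul_of_nonneg_left (hK' n) hK0
  calc (cycSphere u n : ℝ) ≤ ((n : ℝ) + 1) * (K * ((b + x) / 2) ^ n) := h2.trans h3
    _ = K * (((n : ℝ) + 1) * ((b + x) / 2) ^ n) := by ring
    _ ≤ K * (K' * x ^ n) := h4
    _ = _ := by ring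

/-- the spheres grow at least like the conjugates -/
theorem sphere_lower (hr : 2 ≤ r) (u : FreeGroup (Fin r)) (hu : u ≠ 1) :
    ∃ m : ℕ, ∀ c : ℕ, (2 * (r : ℝ) - 1) ^ c ≤ (sphere u (m + 2 * (c + 1)) : ℝ) := by
  have hne : Nonempty (Fin r) := ⟨⟨0, by omega⟩⟩
  have hcast : ((2 * r - 1 : ℕ) : ℝ) = 2 * (r : ℝ) - 1 := by
    rw [Nat.cast_sub (by omega)]; push_cast; ring
  set R := reduceCyclically u.toWord with hR
  set D := reduceCyclically.conjugator u.toWord with hD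
  have hdec : D ++ R ++ invRev D = u.toWord :=
    reduceCyclically.conj_conjugator_reduceCyclically u.toWord
  have hu2 : u = mk D * mk R * (mk D)⁻¹ := by
    rw [← mk_toWord (x := u), ← hdec, ← mul_mk, ← mul_mk, ← inv_mk]
  have hRc : IsCyclicallyReduced R := reduceCyclically.isCyclicallyReduced isReduced_toWord
  have hRne : R ≠ [] := by
    intro h
    apply hu
    rw [hu2, h, ← one_eq_mk]; group
  refine ⟨R.length, fun c => ?_⟩
  obtain ⟨_, h2⟩ := H307AO.conj_lower (Y := Fin r) (by simpa using hr) R hRc hRne c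
  rw [Fintype.card_fin] at h2
  have h3 : {w : FreeGroup (Fin r) | (∃ f : FreeGroup (Fin r), w = f * mk R * f⁻¹) ∧
      w.norm = R.length + 2 * (c + 1)} ⊆ {w | w ∈ orbit u ∧ w.norm = R.length + 2 * (c + 1)} := by
    rintro w ⟨⟨f, rfl⟩, hw⟩
    refine ⟨⟨MulAut.conj (f * (mk D)⁻¹), ?_⟩, hw⟩
    rw [MulAut.conj_apply, hu2]; group
  have hfin : {w | w ∈ orbit u ∧ w.norm = R.length + 2 * (c + 1)}.Finite :=
    (PW6.ball_finite u (R.length + 2 * (c + 1))).subset fun w hw => ⟨hw.1, hw.2.le⟩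
  have h4 := h2.trans (Set.ncard_le_ncard h3 hfin)
  rw [← hcast]
  exact_mod_cast h4

theorem main (hr : 2 ≤ r) (u : FreeGroup (Fin r)) (hu : u ≠ 1) (hp : ¬ Primitive u) :
    ∃ A B : ℝ, 0 ≤ A ∧ 0 ≤ B ∧ 0 < A + B ∧ ∀ x : ℝ, Real.sqrt (2 * (r : ℝ) - 3) < x →
      ∃ K : ℝ, ∀ n : ℕ, (cycSphere u n : ℝ) ≤ K * x ^ n ∧
        |(sphere u n : ℝ) - (if Even n then A else B) * Real.sqrt (2 * (r : ℝ) - 1) ^ n| ≤
          K * x ^ n := by
  set β := Real.sqrt (2 * (r : ℝ) - 1) with hβ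
  set γ := Real.sqrt (2 * (r : ℝ) - 3) with hγ
  have hr' : (2 : ℝ) ≤ r := by exact_mod_cast hr
  have hγ1 : 1 ≤ γ := by
    rw [hγ, Real.one_le_sqrt]; linarith
  have hγβ : γ < β := Real.sqrt_lt_sqrt (by linarith) (by linarith)
  have hβ0 : 0 < β := by linarith
  have hrec := rec_real hr u hu
  rw [← hβ] at hrec
  have hcb : ∀ x K : ℝ, (∀ n : ℕ, (cycSphere u n : ℝ) ≤ K * x ^ n) →
      ∀ n, |(cycSphere u n : ℝ)| ≤ K * x ^ n := by
    intro x K h n
    rw [abs_of_nonneg (by positivity)]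
    exact h n
  -- the limits
  obtain ⟨K₀, hK₀, h₀⟩ := cyc_bound hr u hu hp ((γ + β) / 2) (by rw [← hγ]; linarith)
  obtain ⟨A, hA⟩ := exists_limit (a := fun n => (sphere u n : ℝ))
    (c := fun n => (cycSphere u n : ℝ)) hβ0 hrec (x := (γ + β) / 2) (by linarith) (by linarith)
    (hcb _ _ h₀) 0
  obtain ⟨B, hB⟩ := exists_limit (a := fun n => (sphere u n : ℝ))
    (c := fun n => (cycSphere u n : ℝ)) hβ0 hrec (x := (γ + β) / 2) (by linarith) (by linarith)
    (hcb _ _ h₀) 1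
  have hA0 : 0 ≤ A := ge_of_tendsto' hA (fun k => by positivity)
  have hB0 : 0 ≤ B := ge_of_tendsto' hB (fun k => by positivity)
  refine ⟨A, B, hA0, hB0, ?_, fun x hx => ?_⟩
  · obtain ⟨m, hm⟩ := sphere_lower hr u hu
    have hβ2 : β ^ 2 = 2 * (r : ℝ) - 1 := Real.sq_sqrt (by linarith)
    have hlow : ∀ c : ℕ, (β ^ (m + 2))⁻¹ ≤ (sphere u (m + 2 * (c + 1)) : ℝ) / β ^ (m + 2 * (c + 1)) := by
      intro c
      rw [le_div_iff₀ (by positivity)]
      have e : (β ^ (m + 2))⁻¹ * β ^ (m + 2 * (c + 1)) = β ^ (2 * c) := by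
        rw [show m + 2 * (c + 1) = (m + 2) + 2 * c by ring, pow_add β (m + 2) (2 * c)]
        field_simp
      rw [e, pow_mul, hβ2]
      exact hm c
    have hpos : 0 < (β ^ (m + 2))⁻¹ := by positivity
    rcases Nat.even_or_odd' m with ⟨j, rfl | rfl⟩
    · have h1 : Tendsto (fun c : ℕ => (sphere u (2 * (j + (c + 1)) + 0) : ℝ) /
          β ^ (2 * (j + (c + 1)) + 0)) atTop (𝓝 A) := by
        refine hA.comp (tendsto_atTop_mono (fun c => ?_) tendsto_id)
        simp only [id_eq]; omega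
      have h2 : (β ^ (2 * j + 2))⁻¹ ≤ A := by
        refine ge_of_tendsto' h1 (fun c => ?_)
        have := hlow c
        rwa [show 2 * j + 2 * (c + 1) = 2 * (j + (c + 1)) + 0 by ring] at this
      linarith
    · have h1 : Tendsto (fun c : ℕ => (sphere u (2 * (j + (c + 1)) + 1) : ℝ) /
          β ^ (2 * (j + (c + 1)) + 1)) atTop (𝓝 B) := by
        refine hB.comp (tendsto_atTop_mono (fun c => ?_) tendsto_id)
        simp only [id_eq]; omega
      have h2 : (β ^ (2 * j + 1 + 2))⁻¹ ≤ B := by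
        refine ge_of_tendsto' h1 (fun c => ?_)
        have := hlow c
        rwa [show 2 * j + 1 + 2 * (c + 1) = 2 * (j + (c + 1)) + 1 by ring] at this
      linarith
  · -- the error term
    set y := min x ((γ + β) / 2) with hy
    have hγy : γ < y := lt_min hx (by linarith)
    have hyβ : y < β := lt_of_le_of_lt (min_le_right _ _) (by linarith)
    have hyx : y ≤ x := min_le_left _ _
    have hy0 : 0 < y := by linarith
    obtain ⟨K, hK, h⟩ := cyc_bound hr u hu hp y (by rw [← hγ]; exact hγy)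
    have hden : 0 < β ^ 2 - y ^ 2 := by nlinarith
    set K' := K * (1 + y ^ 2) / (β ^ 2 - y ^ 2) with hK'
    have hK'0 : 0 ≤ K' := by positivity
    refine ⟨K + K', fun n => ⟨?_, ?_⟩⟩
    · have h1 : y ^ n ≤ x ^ n := pow_le_pow_left₀ hy0.le hyx n
      have h2 : 0 ≤ K' * x ^ n := by
        have : 0 < x ^ n := pow_pos (by linarith) n
        positivity
      have h3 := mul_le_mul_of_nonneg_left h1 hK
      have h4 := h n
      rw [add_mul]
      linarith
    · have h1 : y ^ n ≤ x ^ n := pow_le_pow_left₀ hy0.le hyx n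
      have h2 : 0 ≤ K * x ^ n := by
        have : 0 < x ^ n := pow_pos (by linarith) n
        positivity
      have h3 := mul_le_mul_of_nonneg_left h1 hK'0
      have h4 : |(sphere u n : ℝ) - (if Even n then A else B) * β ^ n| ≤ K' * y ^ n := by
        rcases Nat.even_or_odd' n with ⟨k, rfl | rfl⟩
        · have := error_bound (a := fun n => (sphere u n : ℝ))
            (c := fun n => (cycSphere u n : ℝ)) hβ0 hrec hy0 hyβ (hcb _ _ h) 0 hA k
          rw [if_pos (by simp)]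
          simpa using this
        · have := error_bound (a := fun n => (sphere u n : ℝ))
            (c := fun n => (cycSphere u n : ℝ)) hβ0 hrec hy0 hyβ (hcb _ _ h) 1 hB k
          rw [if_neg (by simp)]
          exact this
      rw [add_mul]
      linarith

end PW.Y323
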