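import Pool.Agent.Y323.PW.Sharp
import Pool.Agent.Results.MP_dab459_al.OrbitGrowth

/-!
# The error term is optimal, and the growth rate
-/

set_option autoImplicit false

open FreeGroup Filter Topology

namespace PW.Y323

variable {r : ℕ}

theorem sq_ne_one (i : Fin r) : ((of i : FreeGroup (Fin r)) ^ 2) ≠ 1 := by
  intro h
  have h1 : (of i * of i : FreeGroup (Fin r)).toWord = [(i, true), (i, true)] := by
    rw [of, mul_mk, toWord_mk]
    have : FreeGroup.IsReduced [(i, true), (i, true)] := by simp [FreeGroup.IsReduced]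
    simpa using this.reduce_eq
  rw [pow_two] at h
  rw [h, toWord_one] at h1
  simp at h1

theorem sq_not_primitive (i : Fin r) : ¬ Primitive ((of i : FreeGroup (Fin r)) ^ 2) := by
  classical
  rintro ⟨ι, b, j, hj⟩
  set f : FreeGroup (Fin r) →* Multiplicative ℤ :=
    b.lift (fun k => if k = j then Multiplicative.ofAdd 1 else 1) with hf
  have h1 : f (b j) = Multiplicative.ofAdd 1 := by
    rw [hf, FreeGroupBasis.lift_apply_apply]
    simp
  rw [hj, _root_.map_pow] at h1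
  have h2 := congrArg Multiplicative.toAdd h1
  rw [toAdd_pow, toAdd_ofAdd] at h2
  simp only [smul_eq_mul, nsmul_eq_mul] at h2
  push_cast at h2
  omega

theorem optimal (hr : 3 ≤ r) (i : Fin r) (A B K x : ℝ) (hx : 0 < x)
    (h : ∀ n : ℕ, |(sphere ((of i : FreeGroup (Fin r)) ^ 2) n : ℝ) -
      (if Even n then A else B) * Real.sqrt (2 * (r : ℝ) - 1) ^ n| ≤ K * x ^ n) :
    Real.sqrt (2 * (r : ℝ) - 3) ≤ x := by
  by_contra hcon
  rw [not_le] at hcon
  set u : FreeGroup (Fin r) := (of i : FreeGroup (Fin r)) ^ 2 with hu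
  set β := Real.sqrt (2 * (r : ℝ) - 1) with hβ
  set γ := Real.sqrt (2 * (r : ℝ) - 3) with hγ
  have hr' : (3 : ℝ) ≤ r := by exact_mod_cast hr
  have hγ2 : γ ^ 2 = 2 * (r : ℝ) - 3 := Real.sq_sqrt (by linarith)
  have hγ1 : 1 < γ := by
    rw [hγ]
    exact Real.lt_sqrt_of_sq_lt (by linarith)
  have hrec := rec_real (by omega : 2 ≤ r) u (sq_ne_one i)
  rw [← hβ] at hrec
  set y := max x 1 with hy
  have hy1 : 1 ≤ y := le_max_right _ _
  have hyγ : y < γ := max_lt hcon hγ1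
  have hK : 0 ≤ K := by
    have := (abs_nonneg _).trans (h 0)
    simpa using this
  set C : ℕ → ℝ := fun n => if Even n then A else B with hC
  have hδ : ∀ n : ℕ, |(sphere u n : ℝ) - C n * β ^ n| ≤ K * y ^ n := fun n =>
    (h n).trans (mul_le_mul_of_nonneg_left
      (pow_le_pow_left₀ hx.le (le_max_left _ _) n) hK)
  set K1 := K * (y ^ 2 + β ^ 2) with hK1
  have hK10 : 0 ≤ K1 := by positivity
  have hd : ∀ k : ℕ, (cycSphere u (2 * k + 2) : ℝ) ≤ cycSphere u (2 * k) + K1 * (y ^ 2) ^ k := by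
    intro k
    have e1 := hrec (2 * k)
    have e2 := hδ (2 * k)
    have e3 := hδ (2 * k + 2)
    have e4 : C (2 * k + 2) = C (2 * k) := by
      simp [hC, Nat.even_add]
    rw [e4, e1] at e3
    have e5 : β ^ (2 * k + 2) = β ^ 2 * β ^ (2 * k) := by ring
    have e6 : y ^ (2 * k + 2) = y ^ 2 * y ^ (2 * k) := by ring
    rw [e5, e6] at e3
    rw [abs_le] at e2 e3
    rw [← pow_mul]
    have e7 : β ^ 2 * ((sphere u (2 * k) : ℝ) - C (2 * k) * β ^ (2 * k)) ≥
        β ^ 2 * (-(K * y ^ (2 * k))) := mul_le_mul_of_nonneg_left e2.1 (by positivity)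
    rw [hK1]
    nlinarith [e3.2, e7]
  have hc : ∀ k : ℕ, (cycSphere u (2 * k) : ℝ) ≤
      ((cycSphere u 0 : ℝ) + K1 * k) * (y ^ 2) ^ k := by
    intro k
    induction k with
    | zero => simp
    | succ k ih =>
      have h1 := hd k
      have h2 : (1 : ℝ) ≤ y ^ 2 := one_le_pow₀ hy1
      have h3 : (cycSphere u (2 * k + 2) : ℝ) ≤
          ((cycSphere u 0 : ℝ) + K1 * (k + 1)) * (y ^ 2) ^ k := by
        have : ((cycSphere u 0 : ℝ) + K1 * (k + 1)) * (y ^ 2) ^ k =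
          ((cycSphere u 0 : ℝ) + K1 * k) * (y ^ 2) ^ k + K1 * (y ^ 2) ^ k := by ring
        rw [this]
        linarith
      have h4 : (y ^ 2) ^ k ≤ (y ^ 2) ^ (k + 1) := pow_le_pow_right₀ h2 (Nat.le_succ k)
      have h5 : (0 : ℝ) ≤ (cycSphere u 0 : ℝ) + K1 * (k + 1) := by positivity
      have h6 := mul_le_mul_of_nonneg_left h4 h5
      rw [show 2 * (k + 1) = 2 * k + 2 by ring]
      push_cast
      exact h3.trans h6
  set z := (y ^ 2 + γ ^ 2) / 2 with hz
  have hyz : y ^ 2 < γ ^ 2 := pow_lt_pow_left₀ hyγ (by linarith) (by norm_num)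
  have hy20 : 0 < y ^ 2 := by positivity
  obtain ⟨K3, hK30, hK3⟩ := PW6.poly_absorb (y ^ 2) z hy20 (by rw [hz]; linarith)
  have hz0 : 0 < z := by rw [hz]; positivity
  have hzγ : z < γ ^ 2 := by rw [hz]; linarith
  set K2 := (cycSphere u 0 : ℝ) + K1 with hK2
  have hmain : ∀ k : ℕ, (γ ^ 2) ^ k ≤ K2 * K3 * z * z ^ k := by
    intro k
    have h1 := cyc_lower i k
    have h1' : (((2 * r - 3 : ℕ) : ℝ)) ^ k ≤ (cycSphere u (2 * k + 2) : ℝ) := by
      exact_mod_cast h1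
    have e : ((2 * r - 3 : ℕ) : ℝ) = 2 * (r : ℝ) - 3 := by
      rw [Nat.cast_sub (by omega)]; push_cast; ring
    rw [e, ← hγ2] at h1'
    have h2 := hc (k + 1)
    rw [show 2 * (k + 1) = 2 * k + 2 by ring] at h2
    have h3 := hK3 (k + 1)
    have h4 : ((cycSphere u 0 : ℝ) + K1 * ((k + 1 : ℕ) : ℝ)) ≤ K2 * (((k + 1 : ℕ) : ℝ) + 1) := by
      rw [hK2]
      push_cast
      have : (0 : ℝ) ≤ cycSphere u 0 := by positivity
      nlinarith [mul_nonneg this (by positivity : (0 : ℝ) ≤ (k : ℝ) + 1)]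
    have h5 := mul_le_mul_of_nonneg_right h4 (by positivity : (0 : ℝ) ≤ (y ^ 2) ^ (k + 1))
    have h6 := mul_le_mul_of_nonneg_left h3 (by positivity : (0 : ℝ) ≤ K2)
    calc (γ ^ 2) ^ k ≤ _ := h1'
      _ ≤ _ := h2
      _ ≤ _ := h5
      _ = K2 * ((((k + 1 : ℕ) : ℝ) + 1) * (y ^ 2) ^ (k + 1)) := by ring
      _ ≤ K2 * (K3 * z ^ (k + 1)) := h6
      _ = _ := by ring
  obtain ⟨k, hk⟩ := pow_unbounded_of_one_lt (K2 * K3 * z) ((one_lt_div hz0).2 hzγ)
  have h1 := hmain k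
  rw [div_pow, lt_div_iff₀ (by positivity)] at hk
  linarith

/-- the growth rate (the conjecture of Puder and Wu) -/
theorem growth (hr : 2 ≤ r) (u : FreeGroup (Fin r)) (hu : u ≠ 1) (hp : ¬ Primitive u) :
    limsup (fun n : ℕ => (sphere u n : ℝ) ^ ((1 : ℝ) / (n : ℝ))) atTop =
      Real.sqrt (2 * (r : ℝ) - 1) :=
  (Pool.Agent.Results.MP_dab459_al.OrbitGrowth.result r hr u hu hp).1

end PW.Y323
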