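import Pool.Agent.Y323.PW.Main

/-!
# Squares of primitive elements: the exponent `√(2r-3)` is optimal
-/

set_option autoImplicit false

open FreeGroup Filter Topology

namespace PW.Y323

variable {r : ℕ}

theorem fix_of_avoid (i : Fin r) (f : FreeGroup (Fin r) →* FreeGroup (Fin r))
    (hf : ∀ j, j ≠ i → f (of j) = of j) (v : List (Fin r × Bool)) (hv : ∀ y ∈ v, y.1 ≠ i) :
    f (mk v) = mk v := by
  induction v with
  | nil => rw [← one_eq_mk, _root_.map_one]
  | cons y v ih =>
    have e : (mk (y :: v) : FreeGroup (Fin r)) = mk [y] * mk v := by rw [mul_mk]; rfl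
    have ih' := ih (fun z hz => hv z (List.mem_cons_of_mem _ hz))
    have hy := hf y.1 (hv y (List.mem_cons_self ..))
    have h1 : f (mk [y]) = mk [y] := by
      obtain ⟨j, b⟩ := y
      cases b
      · have e2 : (mk [(j, false)] : FreeGroup (Fin r)) = (of j)⁻¹ := by
          rw [of, inv_mk]; rfl
        rw [e2, _root_.map_inv, hy]
      · exact hy
    rw [e, _root_.map_mul, h1, ih']

/-- `x_i ↦ x_i g` -/
def tvec (i : Fin r) (g : FreeGroup (Fin r)) : FreeGroup (Fin r) →* FreeGroup (Fin r) :=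
  FreeGroup.lift (fun j => if j = i then of i * g else of j)

theorem tvec_ne (i : Fin r) (g : FreeGroup (Fin r)) (j : Fin r) (h : j ≠ i) :
    tvec i g (of j) = of j := by
  simp [tvec, h]

theorem tvec_self (i : Fin r) (g : FreeGroup (Fin r)) : tvec i g (of i) = of i * g := by
  simp [tvec]

theorem tvec_comp (i : Fin r) (v : List (Fin r × Bool)) (hv : ∀ y ∈ v, y.1 ≠ i)
    (g : FreeGroup (Fin r)) (hg : g = mk v ∨ g = (mk v)⁻¹) :
    (tvec i g).comp (tvec i g⁻¹) = MonoidHom.id _ := by
  have h1 : tvec i g (mk v) = mk v := fix_of_avoid i _ (tvec_ne i g) v hv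
  have h2 : tvec i g g = g := by
    rcases hg with h | h
    · rw [h] at h1 ⊢; exact h1
    · rw [h] at h1 ⊢; rw [_root_.map_inv, h1]
  apply FreeGroup.ext_hom
  intro j
  rw [MonoidHom.comp_apply, MonoidHom.id_apply]
  by_cases hj : j = i
  · subst hj
    rw [tvec_self, _root_.map_mul, tvec_self, _root_.map_inv, h2]
    group
  · rw [tvec_ne _ _ _ hj, tvec_ne _ _ _ hj]

theorem sq_mem (i : Fin r) (v : List (Fin r × Bool)) (hv : ∀ y ∈ v, y.1 ≠ i) :
    (of i * mk v) ^ 2 ∈ orbit ((of i : FreeGroup (Fin r)) ^ 2) := by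
  have h1 := tvec_comp i v hv (mk v)⁻¹ (Or.inr rfl)
  have h2 := tvec_comp i v hv (mk v) (Or.inl rfl)
  rw [_root_.inv_inv] at h1
  refine ⟨MonoidHom.toMulEquiv (tvec i (mk v)) (tvec i (mk v)⁻¹) h1 h2, ?_⟩
  show tvec i (mk v) (of i ^ 2) = _
  rw [_root_.map_pow, tvec_self]

/-- the reduced words of length `k` which do not contain the letter `i` -/
def VV (i : Fin r) (k : ℕ) : Set (List (Fin r × Bool)) :=
  {v | FreeGroup.IsReduced v ∧ v.length = k ∧ ∀ y ∈ v, y.1 ≠ i}

theorem VV_finite (i : Fin r) (k : ℕ) : (VV i k).Finite :=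
  (List.finite_length_eq _ k).subset fun _ h => h.2.1

open Classical in
theorem card_ext (i : Fin r) (v : List (Fin r × Bool)) :
    2 * r - 3 ≤ (Finset.univ.filter
      (fun s : Fin r × Bool => s.1 ≠ i ∧ ∀ y ∈ v.head?, s ≠ iv y)).card := by
  have h0 : (Finset.univ.filter (fun s : Fin r × Bool => s.1 ≠ i)).card = 2 * r - 2 := by
    have : (Finset.univ.filter (fun s : Fin r × Bool => s.1 ≠ i)) =
        (Finset.univ.erase i) ×ˢ (Finset.univ : Finset Bool) := by
      ext ⟨j, b⟩
      simp
    rw [this, Finset.card_product, Finset.card_erase_of_mem (Finset.mem_univ _)]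
    simp
    omega
  cases hh : v.head? with
  | none =>
    have : (Finset.univ.filter (fun s : Fin r × Bool => s.1 ≠ i ∧
        ∀ y ∈ (none : Option (Fin r × Bool)), s ≠ iv y)) =
        (Finset.univ.filter (fun s : Fin r × Bool => s.1 ≠ i)) := by
      ext s; simp
    rw [this, h0]
    omega
  | some y =>
    have : (Finset.univ.filter (fun s : Fin r × Bool => s.1 ≠ i ∧
        ∀ z ∈ (some y : Option (Fin r × Bool)), s ≠ iv z)) =
        (Finset.univ.filter (fun s : Fin r × Bool => s.1 ≠ i)).erase (iv y) := by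
      ext s
      simp only [Finset.mem_filter, Finset.mem_univ, true_and, Option.mem_def,
        Option.some.injEq, forall_eq', Finset.mem_erase]
      tauto
    rw [this]
    have h1 := Finset.pred_card_le_card_erase
      (s := (Finset.univ.filter (fun s : Fin r × Bool => s.1 ≠ i))) (a := iv y)
    omega

theorem VV_step (i : Fin r) (k : ℕ) :
    (2 * r - 3) * (VV i k).ncard ≤ (VV i (k + 1)).ncard := by
  classical
  rw [Set.ncard_eq_toFinset_card _ (VV_finite i k),
    Set.ncard_eq_toFinset_card _ (VV_finite i (k + 1))]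
  set A := (VV_finite i k).toFinset with hA
  set T := A.sigma (fun v => Finset.univ.filter
      (fun s : Fin r × Bool => s.1 ≠ i ∧ ∀ y ∈ v.head?, s ≠ iv y)) with hT
  have h1 : (2 * r - 3) * A.card ≤ T.card := by
    rw [hT, Finset.card_sigma, mul_comm, ← smul_eq_mul]
    exact Finset.card_nsmul_le_sum _ _ _ (fun v _ => card_ext i v)
  refine h1.trans ?_
  refine Finset.card_le_card_of_injOn (fun p => p.2 :: p.1) ?_ ?_
  · rintro ⟨v, s⟩ hp
    rw [hT, Finset.mem_coe, Finset.mem_sigma] at hp
    obtain ⟨h2, h3⟩ := hp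
    rw [hA, Set.Finite.mem_toFinset] at h2
    rw [Finset.mem_coe, Set.Finite.mem_toFinset]
    obtain ⟨h4, h5, h6⟩ := h2
    simp only [Finset.mem_filter, Finset.mem_univ, true_and] at h3
    refine ⟨?_, ?_, ?_⟩
    · unfold FreeGroup.IsReduced at h4 ⊢
      rw [List.isChain_cons]
      exact ⟨fun y hy => (rel_iff s y).2 (h3.2 y hy), h4⟩
    · simp [h5]
    · intro y hy
      rcases List.mem_cons.1 hy with rfl | hy
      · exact h3.1
      · exact h6 y hy
  · rintro ⟨v, s⟩ _ ⟨v', s'⟩ _ h
    simp only [List.cons.injEq] at h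
    obtain ⟨rfl, rfl⟩ := h
    rfl

theorem VV_pow (i : Fin r) (k : ℕ) : (2 * r - 3) ^ k ≤ (VV i k).ncard := by
  induction k with
  | zero =>
    have : (VV i 0) = {[]} := by
      ext v
      constructor
      · rintro ⟨_, h, _⟩
        exact List.length_eq_zero_iff.1 h
      · rintro rfl
        exact ⟨by simp [FreeGroup.IsReduced], rfl, by simp⟩
    rw [this]
    simp
  | succ k ih =>
    rw [pow_succ, mul_comm]
    exact (Nat.mul_le_mul_left _ ih).trans (VV_step i k)

theorem cyc_cons (i : Fin r) (v : List (Fin r × Bool)) (h1 : FreeGroup.IsReduced v)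
    (h2 : ∀ y ∈ v, y.1 ≠ i) : FreeGroup.IsCyclicallyReduced ((i, true) :: v) := by
  constructor
  · unfold FreeGroup.IsReduced at h1 ⊢
    rw [List.isChain_cons]
    refine ⟨fun y hy h => ?_, h1⟩
    exact absurd h.symm (h2 y (List.mem_of_mem_head? hy))
  · intro a ha b hb h
    simp only [List.head?_cons, Option.mem_def, Option.some.injEq] at hb
    subst hb
    have h3 : a ∈ (i, true) :: v := List.mem_of_getLast? ha
    rcases List.mem_cons.1 h3 with rfl | h3
    · rfl
    · exact absurd h (h2 a h3)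

theorem cyc_lower (i : Fin r) (k : ℕ) :
    (2 * r - 3) ^ k ≤ cycSphere ((of i : FreeGroup (Fin r)) ^ 2) (2 * k + 2) := by
  refine (VV_pow i k).trans ?_
  rw [cycSphere_eq]
  refine Set.ncard_le_ncard_of_injOn (fun v => ((i, true) :: v) ++ ((i, true) :: v)) ?_ ?_
    (CW_finite _ _)
  · rintro v ⟨h1, h2, h3⟩
    refine ⟨?_, ?_, ?_⟩
    · have := (cyc_cons i v h1 h3).flatten_replicate 2
      simpa [List.replicate] using this
    · simp [h2]; ring
    · have h4 := sq_mem i v h3
      have e : (of i * mk v : FreeGroup (Fin r)) ^ 2 =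
          mk (((i, true) :: v) ++ ((i, true) :: v)) := by
        rw [← mul_mk, pow_two]
        have e2 : (mk ((i, true) :: v) : FreeGroup (Fin r)) = of i * mk v := by
          rw [of, mul_mk]; rfl
        rw [e2]
      rwa [e] at h4
  · rintro v ⟨_, h2, _⟩ v' ⟨_, h2', _⟩ h
    have h3 := (List.append_inj h (by simp [h2, h2'])).1
    simpa using h3

end PW.Y323
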